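import Pool.Agent.H37.Lq5

set_option autoImplicit false

open Pool.Agent.H37.Lq Pool.Agent.H37.Attr

/-- The degrees of the classes with finite non-Boolean quotient lattice are exactly the high
c.e. degrees. -/
theorem Pool.Agent.Results.MP_3eaa21_lc.High.result (A : ℕ → Bool) :
    (∃ P, Pi01 P ∧ FinQ P ∧ ¬ BoolQ P ∧ TuringEquivalent (ora (ext P)) (ora A)) ↔
      CEDeg A ∧ TuringEquivalent (ora (jump A)) (ora (jump (jump fun _ => false))) :=
  main A
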